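import Pool.Agent.helper95.T6.SpecE
import Pool.Agent.helper96.FT.P7

set_option autoImplicit false

/-! T6L (MP_16912e_nt), row ESN: the near points of one block. -/

namespace Pool.Agent.T6

open Finset Pool.Agent.helper3.FT Pool.Agent.T5

theorem ESN_lam (b : ℝ) (hb : 0 < b) (d r : ℕ) : 0 ≤ lamb b d r := by
  apply Real.sInf_nonneg
  rintro x ⟨v, -, -, rfl⟩
  unfold nrm
  exact le_max_of_le_left (le_max_of_le_left (by positivity))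

theorem ESN_sq (near x : ℝ) (hx : 0 ≤ x) (h : near ≤ 234256 ∨ near ≤ (1 + 6 * x) ^ 3) :
    √near ≤ 484 * (1 + x ^ (3 / 2 : ℝ)) := by
  have hx2 : 0 ≤ x ^ (3 / 2 : ℝ) := Real.rpow_nonneg hx _
  rcases h with h | h
  · calc √near ≤ √234256 := Real.sqrt_le_sqrt h
      _ = 484 := by
        rw [show (234256 : ℝ) = 484 ^ 2 by norm_num]
        exact Real.sqrt_sq (by norm_num)
      _ ≤ _ := by nlinarith
  · apply Real.sqrt_le_iff.2 ⟨by positivity, ?_⟩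
    have e : (x ^ (3 / 2 : ℝ)) ^ 2 = x ^ 3 := by
      rw [← Real.rpow_natCast, ← Real.rpow_mul hx, ← Real.rpow_natCast]
      norm_num
    have h1 : x ≤ 1 + x ^ 3 := by
      rcases le_total x 1 with h1 | h1
      · have : 0 ≤ x ^ 3 := by positivity
        linarith
      · have : x ≤ x ^ 3 := le_self_pow₀ h1 (by norm_num)
        linarith
    have h2 : x ^ 2 ≤ 1 + x ^ 3 := by
      rcases le_total x 1 with h1 | h1
      · have h3 : 0 ≤ x ^ 3 := by positivity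
        have h4 : x ^ 2 ≤ 1 := pow_le_one₀ hx h1
        linarith
      · have : x ^ 2 ≤ x ^ 3 := pow_le_pow_right₀ h1 (by norm_num)
        linarith
    have h3 : 0 ≤ x ^ 3 := by positivity
    nlinarith

theorem ESN_near (hEND : END_stmt) (hWDL : WDL_stmt) (y₀ : ℕ) (hy₀ : 5 ≤ y₀)
    (N K L L' T e P₁ P₂ P₃ P₄ y : ℕ) (b ρ : ℝ) (W : EB N K L L' T e P₁ P₂ P₄ b ρ) (hes : 1 ≤ e)
    (hP1 : 1 ≤ P₁) (hP2 : 1 ≤ P₂) (hP3 : 1 ≤ P₃) (hP4 : 1 ≤ P₄) (hPP : P₁ * P₂ = P₃ * P₄)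
    (n k : ℕ) (hp : (n, k) ∈ pairs N K y) (a : ℤ × ℤ × ℤ) (hc3 : Nat.Coprime P₃ (n * k))
    (hR : RT n k P₁ P₂ P₃ a) (h : ℕ) (hh : h ∈ Ico 1 T) :
    √((nearPts L L' ((h * e : ℕ) * a.1 / ((n : ℝ) ^ 3 * k)) ((h * e : ℕ) * a.2.1 / ((n : ℝ) ^ 3 * k))
      ((h * e : ℕ) * a.2.2 / ((n : ℝ) ^ 3 * k))).card : ℝ) ≤
    484 * (1 + ρ ^ (3 / 2 : ℝ) *
      (1 / lamb b (dl y₀ h (n * k)) (rt (dl y₀ h (n * k)) n k)) ^ (3 / 2 : ℝ)) := by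
  unfold pairs at hp
  rw [mem_filter, mem_product, mem_Icc, mem_Icc] at hp
  obtain ⟨⟨⟨hn1, hnN⟩, hk1, hkK⟩, hNn, hKk, hco, -⟩ := hp
  simp only at hn1 hnN hk1 hkK hNn hKk hco
  rw [mem_Ico] at hh
  obtain ⟨hh1, hhT⟩ := hh
  obtain ⟨hD1, hD2, -⟩ := hWDL
  obtain ⟨d1, d2, d3, d4, -⟩ := hD1 y₀ h (n * k) hh1
  set δ := dl y₀ h (n * k) with hδ
  have dk : Nat.Coprime δ k := Nat.Coprime.coprime_mul_left_right d3
  obtain ⟨r1, -, -⟩ := hD2 δ n k d1 dk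
  have d5 : Nat.Coprime δ 5 := by
    rw [Nat.coprime_comm, Nat.Prime.coprime_iff_not_dvd Nat.prime_five]
    intro h5
    have := d4 5 Nat.prime_five h5
    omega
  have hb0 : 0 < b := by linarith [W.b1]
  have hn0 : (0 : ℝ) < n := by exact_mod_cast hn1
  have hk0 : (0 : ℝ) < k := by exact_mod_cast hk1
  have hN0 : (0 : ℝ) < N := by exact_mod_cast W.N1
  have hK0 : (0 : ℝ) < K := by exact_mod_cast W.K1
  have hL0 : (0 : ℝ) < L := by exact_mod_cast W.L1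
  have hL0' : (0 : ℝ) < L' := by exact_mod_cast W.L1'
  have hes0 : (0 : ℝ) < e := by exact_mod_cast hes
  have p1 : (0 : ℝ) < P₁ := by exact_mod_cast hP1
  have p2 : (0 : ℝ) < P₂ := by exact_mod_cast hP2
  have p4 : (0 : ℝ) < P₄ := by exact_mod_cast hP4
  have hnN' : (n : ℝ) ≤ N := by exact_mod_cast hnN
  have hkK' : (k : ℝ) ≤ K := by exact_mod_cast hkK
  have hNn' : (N : ℝ) ≤ 2 * n := by exact_mod_cast hNn.le
  have hKk' : (K : ℝ) ≤ 2 * k := by exact_mod_cast hKk.le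
  have hhT' : (h : ℝ) ≤ T := by exact_mod_cast hhT.le
  have hh0 : (0 : ℝ) ≤ h := by positivity
  -- the comparison of the main terms
  have cmp : ∀ X : ℝ, 0 ≤ X → 4 * (((h * e : ℕ) : ℝ) * P₄) * X / (n : ℝ) ^ 3 ≤
      32 * ((T : ℝ) * e * P₄) * X / (N : ℝ) ^ 3 := by
    intro X hX
    rw [div_le_div_iff₀ (by positivity) (by positivity)]
    push_cast
    have e1 : (N : ℝ) ^ 3 ≤ 8 * (n : ℝ) ^ 3 := by
      have := pow_le_pow_left₀ hN0.le hNn' 3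
      calc (N : ℝ) ^ 3 ≤ (2 * n) ^ 3 := this
        _ = 8 * (n : ℝ) ^ 3 := by ring
    have e2 : (h : ℝ) * e * P₄ ≤ T * e * P₄ :=
      mul_le_mul_of_nonneg_right (mul_le_mul_of_nonneg_right hhT' hes0.le) p4.le
    calc 4 * ((h : ℝ) * e * P₄) * X * (N : ℝ) ^ 3 ≤ 4 * ((T : ℝ) * e * P₄) * X * (8 * (n : ℝ) ^ 3) := by
          gcongr
      _ = 32 * ((T : ℝ) * e * P₄) * X * (n : ℝ) ^ 3 := by ring
  have c1 := cmp L' hL0'.le
  have c2 := cmp L hL0.le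
  have hT0 : (0 : ℝ) ≤ T := by positivity
  have g2 : P₁ * (4 * (((h * e : ℕ) : ℝ) * P₄) * L / (n : ℝ) ^ 3 + (k : ℝ) ^ 3 / L') +
      P₂ * (2 * (n : ℝ) ^ 2 * k / L) ≤
      P₁ * (32 * ((T : ℝ) * e * P₄) * L / (N : ℝ) ^ 3 + (K : ℝ) ^ 3 / L') +
      P₂ * (2 * (N : ℝ) ^ 2 * K / L) := by
    have a2 : P₂ * (2 * (n : ℝ) ^ 2 * k / L) ≤ P₂ * (2 * (N : ℝ) ^ 2 * K / L) := by gcongr
    have a3 : (k : ℝ) ^ 3 / L' ≤ (K : ℝ) ^ 3 / L' := by gcongr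
    have a4 := mul_le_mul_of_nonneg_left (add_le_add c2 a3) p1.le
    linarith
  have hx := hEND n k L L' (h * e) δ (rt δ n k) P₁ P₂ P₃ P₄ a b ρ hn1 hk1 W.L1 W.L1'
    (Nat.mul_pos hh1 hes) hP1 hP2 hP3 hP4 hPP hco hc3 hR W.b1 W.ρ0 d1 (d2.trans (dvd_mul_right _ _))
    (Nat.Coprime.mul_right d5 d3) r1
    (by
      refine le_trans ?_ W.s1
      have a3 : (k : ℝ) ^ 3 / L ≤ (K : ℝ) ^ 3 / L := by gcongr
      exact mul_le_mul_of_nonneg_left (add_le_add c1 a3) p2.le)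
    (le_trans g2 W.s2)
    (by
      refine le_trans ?_ W.s3
      have a1 : 2 * (n : ℝ) / k ≤ 4 * (N : ℝ) / K := by
        rw [div_le_div_iff₀ hk0 hK0]
        calc 2 * (n : ℝ) * K ≤ 2 * N * (2 * k) := by gcongr
          _ = 4 * (N : ℝ) * k := by ring
      have a2 : P₂ * (5 * (n : ℝ) ^ 3 / L) ≤ P₂ * (5 * (N : ℝ) ^ 3 / L) := by gcongr
      have a3 := mul_le_mul a1 g2 (by positivity) (by positivity)
      linarith)
    (le_trans (by gcongr) W.s4)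
  have hlam := ESN_lam b hb0 δ (rt δ n k)
  have hρ := W.ρ0
  have key := ESN_sq _ (ρ / lamb b δ (rt δ n k)) (by positivity) (by
    rcases hx with hx | hx
    · left; exact hx
    · right
      rw [← mul_div_assoc]
      exact hx)
  refine key.trans_eq ?_
  rw [div_eq_mul_one_div, Real.mul_rpow hρ (by positivity)]

theorem ESN (hEND : END_stmt) (hWSM : WSM_stmt) (hWDL : WDL_stmt) : ESN_stmt := by
  classical
  intro y₀ B C₀ τ hy₀ hC₀ hτ hτ1 hLFS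
  obtain ⟨CS, hCS, HS⟩ := hWSM y₀ B C₀ τ hy₀ hC₀ hτ hτ1 hLFS
  refine ⟨968 * CS, by linarith, ?_⟩
  intro N K L L' T e P₁ P₂ P₃ P₄ y b ρ W hes hy hP1 hP2 hP3 hP4 hPP S a hS hSa
  have hb0 : 0 < b := by linarith [W.b1]
  have hρ := W.ρ0
  have hT1 : (1 : ℝ) ≤ T := by exact_mod_cast W.T1
  have hT0 : (0 : ℝ) < T := by linarith
  have hN0 : (0 : ℝ) < N := by exact_mod_cast W.N1
  have hK0 : (0 : ℝ) < K := by exact_mod_cast W.K1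
  have hy1 : 1 ≤ y := Nat.pos_of_ne_zero hy.ne_zero
  have hy0 : (0 : ℝ) < y := by exact_mod_cast hy1
  have hlam : ∀ d r, 0 ≤ lamb b d r := ESN_lam b hb0
  set ω := y.primeFactors.card with hω
  have hρn : 0 ≤ ρ ^ (3 / 2 : ℝ) := Real.rpow_nonneg hρ _
  set LT : ℕ × ℕ → ℕ → ℝ := fun p h =>
    (1 / lamb b (dl y₀ h (p.1 * p.2)) (rt (dl y₀ h (p.1 * p.2)) p.1 p.2)) ^ (3 / 2 : ℝ) with hLT
  have hLT0 : ∀ p h, 0 ≤ LT p h := by
    intro p h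
    exact Real.rpow_nonneg (div_nonneg zero_le_one (hlam _ _)) _
  have hW := pairs_card N K y hy
  have hSM := HS b N K y T W.b1 W.N1 W.K1 W.T1 hy
  -- one pair
  have c1 : ∀ p ∈ S, NS L L' T e p.1 p.2 (a p) ≤ 484 * ∑ h ∈ Ico 1 T, (1 + ρ ^ (3 / 2 : ℝ) * LT p h) := by
    intro p hp
    unfold NS
    rw [mul_sum]
    refine sum_le_sum fun h hh => ?_
    exact ESN_near hEND hWDL y₀ hy₀ N K L L' T e P₁ P₂ P₃ P₄ y b ρ W hes hP1 hP2 hP3 hP4 hPP p.1 p.2 (hS hp)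
      (a p) (hSa p hp).1 (hSa p hp).2 h hh
  have c2 : ∑ p ∈ S, NS L L' T e p.1 p.2 (a p) ≤
      484 * ∑ p ∈ pairs N K y, ∑ h ∈ Ico 1 T, (1 + ρ ^ (3 / 2 : ℝ) * LT p h) := by
    refine (sum_le_sum c1).trans ?_
    rw [← mul_sum]
    refine mul_le_mul_of_nonneg_left ?_ (by norm_num)
    refine sum_le_sum_of_subset_of_nonneg hS fun p _ _ => sum_nonneg fun h _ => ?_
    have := mul_nonneg hρn (hLT0 p h)
    linarith
  refine c2.trans ?_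
  set P := (N : ℝ) * K / y with hP
  have hP0 : 0 ≤ P := by positivity
  set W2 : ℝ := ((pairs N K y).card : ℝ) with hW2
  set Q : ℝ := ((T : ℝ) ^ (5 / 4 : ℝ) + N * K * (T : ℝ) ^ (1 / 4 : ℝ) / y) * (1 + b ^ B * (T : ℝ) ^ (-τ)) with hQ
  have hQ0 : 0 ≤ Q := by positivity
  have hSM' : ∑ p ∈ pairs N K y, ∑ h ∈ Ico 1 T, LT p h ≤ CS ^ (ω + 1) * Q := by
    rw [hQ, ← mul_assoc]
    exact hSM
  have hTsum : ∑ p ∈ pairs N K y, ∑ h ∈ Ico 1 T, (1 + ρ ^ (3 / 2 : ℝ) * LT p h) ≤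
      W2 * T + ρ ^ (3 / 2 : ℝ) * (CS ^ (ω + 1) * Q) := by
    have e1 : ∑ p ∈ pairs N K y, ∑ h ∈ Ico 1 T, (1 + ρ ^ (3 / 2 : ℝ) * LT p h) =
        W2 * ((T - 1 : ℕ) : ℝ) + ρ ^ (3 / 2 : ℝ) * ∑ p ∈ pairs N K y, ∑ h ∈ Ico 1 T, LT p h := by
      have e0 : ∀ p : ℕ × ℕ, ∑ h ∈ Ico 1 T, (1 + ρ ^ (3 / 2 : ℝ) * LT p h) =
          ((T - 1 : ℕ) : ℝ) + ρ ^ (3 / 2 : ℝ) * ∑ h ∈ Ico 1 T, LT p h := by
        intro p
        rw [sum_add_distrib, sum_const, Nat.card_Ico, nsmul_eq_mul, mul_one, mul_sum]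
      rw [sum_congr rfl (fun p _ => e0 p), sum_add_distrib, sum_const, nsmul_eq_mul, ← mul_sum]
    rw [e1]
    have e2 : ((T - 1 : ℕ) : ℝ) ≤ T := by exact_mod_cast Nat.sub_le T 1
    have e3 : W2 * ((T - 1 : ℕ) : ℝ) ≤ W2 * T := mul_le_mul_of_nonneg_left e2 (Nat.cast_nonneg _)
    have e4 := mul_le_mul_of_nonneg_left hSM' hρn
    linarith
  have hA2 : 1 ≤ 2 * CS := by linarith
  have h484 : (484 : ℝ) ≤ 484 ^ (ω + 1) := by
    calc (484 : ℝ) = 484 ^ 1 := by norm_num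
      _ ≤ 484 ^ (ω + 1) := pow_le_pow_right₀ (by norm_num) (by omega)
  have h2ω : (2 : ℝ) ^ ω ≤ (2 * CS) ^ (ω + 1) := by
    calc (2 : ℝ) ^ ω ≤ (2 * CS) ^ ω := pow_le_pow_left₀ (by norm_num) (by linarith) _
      _ ≤ (2 * CS) ^ (ω + 1) := pow_le_pow_right₀ hA2 (by omega)
  have hCω : CS ^ (ω + 1) ≤ (2 * CS) ^ (ω + 1) := pow_le_pow_left₀ (by linarith) (by linarith) _
  set Z := (2 * CS) ^ (ω + 1) with hZ
  have hZ0 : 0 ≤ Z := by positivity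
  have hW3 : W2 ≤ Z * P := hW.trans (mul_le_mul_of_nonneg_right h2ω hP0)
  have t1 : W2 * T ≤ Z * (T * P) := by
    calc W2 * T ≤ (Z * P) * T := mul_le_mul_of_nonneg_right hW3 hT0.le
      _ = Z * (T * P) := by ring
  have t2 : ρ ^ (3 / 2 : ℝ) * (CS ^ (ω + 1) * Q) ≤ Z * (ρ ^ (3 / 2 : ℝ) * Q) := by
    calc ρ ^ (3 / 2 : ℝ) * (CS ^ (ω + 1) * Q) ≤ ρ ^ (3 / 2 : ℝ) * (Z * Q) :=
          mul_le_mul_of_nonneg_left (mul_le_mul_of_nonneg_right hCω hQ0) hρn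
      _ = Z * (ρ ^ (3 / 2 : ℝ) * Q) := by ring
  have h968 : (968 * CS) ^ (ω + 1) = 484 ^ (ω + 1) * Z := by
    rw [hZ, ← mul_pow]
    congr 1
    ring
  rw [h968]
  have hR0 : 0 ≤ T * P + ρ ^ (3 / 2 : ℝ) * Q := by positivity
  calc 484 * ∑ p ∈ pairs N K y, ∑ h ∈ Ico 1 T, (1 + ρ ^ (3 / 2 : ℝ) * LT p h)
      ≤ 484 * (Z * (T * P + ρ ^ (3 / 2 : ℝ) * Q)) := by
        refine mul_le_mul_of_nonneg_left ?_ (by norm_num)
        refine hTsum.trans ?_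
        rw [mul_add]
        exact add_le_add t1 t2
    _ ≤ 484 ^ (ω + 1) * (Z * (T * P + ρ ^ (3 / 2 : ℝ) * Q)) :=
        mul_le_mul_of_nonneg_right h484 (mul_nonneg hZ0 hR0)
    _ = 484 ^ (ω + 1) * Z * (T * P + ρ ^ (3 / 2 : ℝ) *
        ((T : ℝ) ^ (5 / 4 : ℝ) + N * K * (T : ℝ) ^ (1 / 4 : ℝ) / y) * (1 + b ^ B * (T : ℝ) ^ (-τ))) := by
        rw [hQ]
        ring

end Pool.Agent.T6
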