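import Pool.Agent.helper8.T6.SpecC1

/-!
# T6, block C, row TGS (helper44)
-/

set_option autoImplicit false

namespace Pool.Agent.T6

open Finset Pool.Agent.T5

theorem TGS_card (p a j : ℕ) (hp : p.Prime) (hj : j ≤ a) :
    ((range (p ^ a)).filter (fun R => p ^ j ∣ R)).card ≤ p ^ (a - j) := by
  have hpj : 0 < p ^ j := pow_pos hp.pos _
  calc ((range (p ^ a)).filter (fun R => p ^ j ∣ R)).card ≤ (range (p ^ (a - j))).card := by
        refine Finset.card_le_card_of_injOn (fun R => R / p ^ j) ?_ ?_
        · intro R hR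
          simp only [Finset.coe_filter, Finset.mem_range, Set.mem_setOf_eq] at hR
          simp only [Finset.coe_range, Set.mem_Iio]
          rw [Nat.div_lt_iff_lt_mul hpj, ← pow_add, Nat.sub_add_cancel hj]
          exact hR.1
        · intro R hR R' hR' h
          simp only [Finset.coe_filter, Finset.mem_range, Set.mem_setOf_eq] at hR hR'
          obtain ⟨c, hc⟩ := hR.2
          obtain ⟨c', hc'⟩ := hR'.2
          simp only at h
          rw [hc, hc', Nat.mul_div_cancel_left _ hpj, Nat.mul_div_cancel_left _ hpj] at h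
          rw [hc, hc', h]
    _ = p ^ (a - j) := Finset.card_range _

theorem TGS : TGS_stmt := by
  intro p a hp
  have h1 : ∀ R ∈ range (p ^ a), Nat.gcd R (p ^ a) ≤
      ∑ j ∈ range (a + 1), if p ^ j ∣ R then p ^ j else 0 := by
    intro R _
    obtain ⟨j, hj, hg⟩ := (Nat.dvd_prime_pow hp).1 (Nat.gcd_dvd_right R (p ^ a))
    have hR : p ^ j ∣ R := hg ▸ Nat.gcd_dvd_left R (p ^ a)
    rw [hg]
    have h2 := Finset.single_le_sum (f := fun j => if p ^ j ∣ R then p ^ j else 0)
      (s := range (a + 1)) (fun i _ => Nat.zero_le _) (Finset.mem_range.2 (Nat.lt_succ_of_le hj))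
    simp only [if_pos hR] at h2
    exact h2
  calc ∑ R ∈ range (p ^ a), Nat.gcd R (p ^ a)
      ≤ ∑ R ∈ range (p ^ a), ∑ j ∈ range (a + 1), (if p ^ j ∣ R then p ^ j else 0) :=
        Finset.sum_le_sum h1
    _ = ∑ j ∈ range (a + 1), ∑ R ∈ range (p ^ a), (if p ^ j ∣ R then p ^ j else 0) :=
        Finset.sum_comm
    _ ≤ ∑ j ∈ range (a + 1), p ^ a := by
        refine Finset.sum_le_sum fun j hj => ?_
        have hj' : j ≤ a := Nat.lt_succ_iff.1 (Finset.mem_range.1 hj)
        rw [← Finset.sum_filter, Finset.sum_const, smul_eq_mul]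
        calc ((range (p ^ a)).filter (fun R => p ^ j ∣ R)).card * p ^ j
            ≤ p ^ (a - j) * p ^ j := Nat.mul_le_mul_right _ (TGS_card p a j hp hj')
          _ = p ^ a := by rw [← pow_add, Nat.sub_add_cancel hj']
    _ = (a + 1) * p ^ a := by rw [Finset.sum_const, Finset.card_range, smul_eq_mul]

end Pool.Agent.T6
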